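import Pool.Agent.H29.ENR.Stmts9

set_option autoImplicit false

namespace Pool.ENR

theorem fr2_thm (h1 : FR1Stmt) : FR2Stmt := by
  intro G _ _ p _ hF P x hx g hg
  obtain ⟨c, hc1, hc2⟩ := h1 G p hF (g⁻¹ • P) P
  have hQ : ∀ z : G, z ∈ (g⁻¹ • P : Sylow p G) ↔ g * z * g⁻¹ ∈ P := by
    intro z
    rw [← SetLike.mem_coe, Sylow.coe_smul, Set.mem_smul_set_iff_inv_smul_mem]
    simp [MulAut.smul_def, MulAut.conj_apply]
  have hy : g⁻¹ * x * g ∈ (g⁻¹ • P : Sylow p G) := by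
    rw [hQ]
    have : g * (g⁻¹ * x * g) * g⁻¹ = x := by group
    rw [this]
    exact hx
  have hcy := hc1 _ hy hg
  obtain ⟨h, hh⟩ : ∃ h, h = g * c⁻¹ := ⟨_, rfl⟩
  have hn : h ∈ Subgroup.normalizer (P : Set G) := by
    rw [← inv_mem_iff, Subgroup.mem_set_normalizer_iff]
    intro z
    have e1 : z ∈ (P : Set G) ↔ g⁻¹ * z * g ∈ (g⁻¹ • P : Sylow p G) := by
      rw [hQ]
      have : g * (g⁻¹ * z * g) * g⁻¹ = z := by group
      rw [this]
      rfl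
    rw [e1, hc2]
    have e2 : h⁻¹ * z * h⁻¹⁻¹ = c * (g⁻¹ * z * g) * c⁻¹ := by
      rw [hh]
      group
    rw [e2]
    rfl
  have hxh : h⁻¹ * x * h = g⁻¹ * x * g := by
    have e2 : h⁻¹ * x * h = c * (g⁻¹ * x * g) * c⁻¹ := by
      rw [hh]
      group
    rw [e2, hcy]
    group
  have hpp : p.Prime := Fact.out
  have ho : orderOf h ≠ 0 := (orderOf_pos h).ne'
  obtain ⟨a, m, hm, ham⟩ := Nat.exists_eq_pow_mul_and_not_dvd ho p hpp.ne_one
  have hcop : IsCoprime ((p ^ a : ℕ) : ℤ) (m : ℤ) := by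
    rw [Nat.isCoprime_iff_coprime]
    exact Nat.Coprime.pow_left a ((hpp.coprime_iff_not_dvd).2 hm)
  obtain ⟨s, t, hst⟩ := hcop
  have hone : h ^ (((p ^ a * m : ℕ)) : ℤ) = 1 := by
    rw [zpow_natCast, ← ham, pow_orderOf_eq_one]
  obtain ⟨u, hu⟩ : ∃ u, u = h ^ (t * (m : ℤ)) := ⟨_, rfl⟩
  obtain ⟨v, hv⟩ : ∃ v, v = h ^ (s * ((p ^ a : ℕ) : ℤ)) := ⟨_, rfl⟩
  have huv : h = u * v := by
    rw [hu, hv, ← zpow_add]
    have : t * (m : ℤ) + s * ((p ^ a : ℕ) : ℤ) = 1 := by linarith only [hst]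
    rw [this, zpow_one]
  have hu1 : u ^ (p ^ a) = 1 := by
    rw [hu, ← zpow_natCast, ← zpow_mul]
    have : t * (m : ℤ) * ((p ^ a : ℕ) : ℤ) = ((p ^ a * m : ℕ) : ℤ) * t := by
      push_cast
      ring
    rw [this, zpow_mul, hone, one_zpow]
  have hv1 : v ^ m = 1 := by
    rw [hv, ← zpow_natCast, ← zpow_mul]
    have : s * ((p ^ a : ℕ) : ℤ) * (m : ℤ) = ((p ^ a * m : ℕ) : ℤ) * s := by
      push_cast
      ring
    rw [this, zpow_mul, hone, one_zpow]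
  have hun : u ∈ Subgroup.normalizer (P : Set G) := by
    rw [hu]
    exact Subgroup.zpow_mem _ hn _
  have hvn : v ∈ Subgroup.normalizer (P : Set G) := by
    rw [hv]
    exact Subgroup.zpow_mem _ hn _
  have hvc : ∀ z ∈ (P : Subgroup G), v * z = z * v :=
    hF P P.isPGroup' v m (fun z => (Subgroup.mem_set_normalizer_iff.1 hvn) z) hv1 hm
  have hpg : IsPGroup p (Subgroup.zpowers u) := by
    rintro ⟨w, hw⟩
    obtain ⟨z, rfl⟩ := Subgroup.mem_zpowers_iff.1 hw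
    refine ⟨a, ?_⟩
    apply Subtype.ext
    show (u ^ z) ^ (p ^ a) = 1
    rw [← zpow_natCast, ← zpow_mul, mul_comm, zpow_mul, zpow_natCast, hu1, one_zpow]
  have huP : u ∈ (P : Subgroup G) := by
    have h2 := hpg.inf_normalizer_sylow P
    have h3 : u ∈ Subgroup.zpowers u ⊓ Subgroup.normalizer (P : Set G) :=
      ⟨Subgroup.mem_zpowers u, hun⟩
    rw [h2] at h3
    exact h3.2
  refine ⟨u, huP, ?_⟩
  rw [← hxh, huv]
  have h4 : u⁻¹ * x * u ∈ (P : Subgroup G) :=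
    Subgroup.mul_mem _ (Subgroup.mul_mem _ (Subgroup.inv_mem _ huP) hx) huP
  have h5 := hvc _ h4
  have e3 : (u * v)⁻¹ * x * (u * v) = v⁻¹ * ((u⁻¹ * x * u) * v) := by group
  rw [e3, ← h5, ← mul_assoc, inv_mul_cancel, one_mul]

end Pool.ENR
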