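import Pool.Agent.H29.ENR.Stmts

set_option autoImplicit false

namespace Pool.ENR

namespace NumH18

theorem gs (x : ℤ) (m n : ℕ) : ∑ i ∈ Finset.range (m * n), x ^ i =
    (∑ i ∈ Finset.range m, x ^ i) * ∑ j ∈ Finset.range n, (x ^ m) ^ j := by
  induction n with
  | zero => simp
  | succ n ih =>
    rw [Nat.mul_succ, Finset.sum_range_add, ih, Finset.sum_range_succ, mul_add]
    congr 1
    rw [Finset.sum_mul]
    apply Finset.sum_congr rfl
    intro i _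
    rw [pow_add, pow_mul]
    ring

theorem pw (p x : ℤ) (n : ℕ) : ∃ z : ℤ, (1 + p * x) ^ n = 1 + n * (p * x) + p ^ 2 * z := by
  induction n with
  | zero => exact ⟨0, by simp⟩
  | succ n ih =>
    obtain ⟨z, hz⟩ := ih
    refine ⟨n * x ^ 2 + z * (1 + p * x), ?_⟩
    rw [pow_succ, hz]
    push_cast
    ring

theorem sm (p x : ℤ) (n : ℕ) : ∃ y : ℤ, ∑ i ∈ Finset.range n, (1 + p * x) ^ i =
    n + p * x * (∑ i ∈ Finset.range n, (i : ℤ)) + p ^ 2 * y := by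
  induction n with
  | zero => exact ⟨0, by simp⟩
  | succ n ih =>
    obtain ⟨y, hy⟩ := ih
    obtain ⟨z, hz⟩ := pw p x n
    refine ⟨y + z, ?_⟩
    rw [Finset.sum_range_succ, Finset.sum_range_succ, hy, hz]
    push_cast
    ring

/-- `∑_{i<p} w ^ i = p (1 + p y)` -/
theorem sp (p : ℕ) (hp : p.Prime) (h2 : p ≠ 2) (w : ℤ) (hw : (p : ℤ) ∣ w - 1) :
    ∃ y : ℤ, ∑ i ∈ Finset.range p, w ^ i = p * (1 + p * y) := by
  obtain ⟨x, hx⟩ := hw
  obtain ⟨q, hq⟩ := hp.odd_of_ne_two h2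
  have hw : w = 1 + p * x := by linarith only [hx]
  obtain ⟨y, hy⟩ := sm p x p
  have hs : (∑ i ∈ Finset.range p, (i : ℤ)) = p * q := by
    have h := Finset.sum_range_id_mul_two p
    have h3 : (∑ i ∈ Finset.range p, i) * 2 = (p * q) * 2 := by
      rw [h]
      have : p - 1 = 2 * q := by omega
      rw [this]
      ring
    have h4 : ∑ i ∈ Finset.range p, i = p * q := Nat.eq_of_mul_eq_mul_right (by norm_num) h3
    have h5 : ((∑ i ∈ Finset.range p, i : ℕ) : ℤ) = ((p * q : ℕ) : ℤ) := by rw [h4]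
    push_cast at h5
    exact h5
  refine ⟨x * q + y, ?_⟩
  rw [hw, hy, hs]
  ring

theorem pdvd (p : ℕ) (w : ℤ) (hw : (p : ℤ) ∣ w - 1) (k : ℕ) : (p : ℤ) ∣ w ^ k - 1 := by
  have h := sub_dvd_pow_sub_pow w 1 k
  rw [one_pow] at h
  exact hw.trans h

/-- `p ^ (k + 1)` does not divide `∑_{i < p ^ k} w ^ i` -/
theorem nd (p : ℕ) (hp : p.Prime) (h2 : p ≠ 2) (w : ℤ) (hw : (p : ℤ) ∣ w - 1) (k : ℕ) :
    ¬ (p : ℤ) ^ (k + 1) ∣ ∑ i ∈ Finset.range (p ^ k), w ^ i := by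
  have hpZ : Prime (p : ℤ) := Nat.prime_iff_prime_int.1 hp
  induction k with
  | zero =>
    intro h
    simp only [pow_zero, zero_add, pow_one, Finset.range_one, Finset.sum_singleton] at h
    exact hpZ.not_dvd_one h
  | succ k ih =>
    intro h
    obtain ⟨y, hy⟩ := sp p hp h2 (w ^ p ^ k) (pdvd p w hw _)
    rw [pow_succ p k, gs, hy] at h
    have h3 : (p : ℤ) * (p : ℤ) ^ (k + 1) ∣
        (p : ℤ) * ((∑ i ∈ Finset.range (p ^ k), w ^ i) * (1 + p * y)) := by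
      have e1 : (p : ℤ) * (p : ℤ) ^ (k + 1) = (p : ℤ) ^ (k + 1 + 1) := by ring
      have e2 : (p : ℤ) * ((∑ i ∈ Finset.range (p ^ k), w ^ i) * (1 + p * y)) =
          (∑ i ∈ Finset.range (p ^ k), w ^ i) * (p * (1 + p * y)) := by ring
      rw [e1, e2]
      exact h
    have h4 := (mul_dvd_mul_iff_left hpZ.ne_zero).1 h3
    apply ih
    refine IsCoprime.dvd_of_dvd_mul_right ?_ h4
    apply IsCoprime.pow_left
    exact ⟨-y, 1, by ring⟩

end NumH18

open NumH18 in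
theorem num_aux (p c M' : ℕ) (lam e u : ℤ) (hp : p.Prime) (h2 : p ≠ 2) (hc : 1 ≤ c) (hM : ¬ p ∣ M')
    (hu : ¬ (p : ℤ) ∣ u) (hl : (p : ℤ) ∣ lam - 1) :
    ¬ ((p ^ c : ℕ) : ℤ) ∣ e * (lam ^ (p ^ (c - 1) * M') - 1) +
      u * ∑ i ∈ Finset.range (p ^ (c - 1) * M'), lam ^ i := by
  intro h
  obtain ⟨b, rfl⟩ : ∃ b, c = b + 1 := ⟨c - 1, by omega⟩
  have e0 : b + 1 - 1 = b := by omega
  rw [e0] at h
  push_cast at h
  have hpZ : Prime (p : ℤ) := Nat.prime_iff_prime_int.1 hp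
  have h3 : (p : ℤ) ^ (b + 1) ∣ lam ^ (p ^ b * M') - 1 := by
    have h4 := dvd_sub_pow_of_dvd_sub (p := p) (a := lam) (b := 1) (by simpa using hl) b
    rw [one_pow] at h4
    have h5 := sub_dvd_pow_sub_pow (lam ^ p ^ b) 1 M'
    rw [one_pow, ← pow_mul] at h5
    exact h4.trans h5
  have h6 : (p : ℤ) ^ (b + 1) ∣ u * ∑ i ∈ Finset.range (p ^ b * M'), lam ^ i :=
    (dvd_add_right (Dvd.dvd.mul_left h3 e)).1 h
  rw [gs] at h6
  have cu : IsCoprime ((p : ℤ) ^ (b + 1)) u := by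
    apply IsCoprime.pow_left
    exact (hpZ.coprime_iff_not_dvd).2 hu
  have h7 := cu.dvd_of_dvd_mul_left h6
  have cm : IsCoprime ((p : ℤ) ^ (b + 1)) (∑ j ∈ Finset.range M', (lam ^ p ^ b) ^ j) := by
    apply IsCoprime.pow_left
    rw [hpZ.coprime_iff_not_dvd]
    intro h8
    have h9 : (p : ℤ) ∣ (∑ j ∈ Finset.range M', (lam ^ p ^ b) ^ j) - M' := by
      have e1 : (∑ j ∈ Finset.range M', (lam ^ p ^ b) ^ j) - (M' : ℤ) =
          ∑ j ∈ Finset.range M', ((lam ^ p ^ b) ^ j - 1) := by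
        rw [Finset.sum_sub_distrib]
        simp
      rw [e1]
      apply Finset.dvd_sum
      intro j _
      exact pdvd p _ (pdvd p lam hl _) j
    have h10 : (p : ℤ) ∣ (M' : ℤ) := by
      have := dvd_sub h8 h9
      rwa [sub_sub_cancel] at this
    exact hM (Int.natCast_dvd_natCast.1 h10)
  exact nd p hp h2 lam hl b (cm.dvd_of_dvd_mul_right h7)

theorem num_thm : NUMStmt :=
  fun p c M' lam e u hp h2 hc hM hu hl => num_aux p c M' lam e u hp h2 hc hM hu hl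

end Pool.ENR
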